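import Pool.Agent.helper54.UG.Spec

/-!
# Row KOT of project ug: the trace lemma for Kolchin's theorem
-/

set_option autoImplicit false

namespace Pool.Agent.UG

open Matrix Pool.Agent.H48SL Polynomial

theorem KOT : KOT_stmt := by
  intro W _ _ _ R hR htr b hb hzero
  by_contra hne
  have hw : ∃ w : W, b w ≠ 0 := by
    by_contra hcon
    push Not at hcon
    exact hne (LinearMap.ext hcon)
  obtain ⟨w, hw⟩ := hw
  obtain ⟨r, hr, hrw⟩ := htr (b w) hw w
  have hw0 : w ≠ 0 := by
    rintro rfl
    exact hw (map_zero b)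
  set T : Module.End ℚ W := r * b with hT
  have hTw : T w = w := hrw
  -- powers
  have hpow : ∀ n : ℕ, T ^ n * r ∈ R := by
    intro n
    induction n with
    | zero => simpa using hr
    | succ n ih =>
      have h1 : T ^ (n + 1) * r = (T ^ n * r) * (b * r) := by
        rw [pow_succ, hT]
        simp only [mul_assoc]
      rw [h1]
      exact hR _ ih _ (hR _ hb _ hr)
  have htp : ∀ n : ℕ, LinearMap.trace ℚ W (T ^ (n + 1)) = 0 := by
    intro n
    have h1 : T ^ (n + 1) = (T ^ n * r) * b := by
      rw [pow_succ, mul_assoc]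
    rw [h1]
    exact hzero _ (hpow n)
  have hpoly : ∀ q : ℚ[X], LinearMap.trace ℚ W (aeval T (q * X)) = 0 := by
    intro q
    induction q using Polynomial.induction_on' with
    | add p q hp hq => rw [add_mul, map_add, map_add, hp, hq, add_zero]
    | monomial n c =>
      have h1 : aeval T (monomial n c * X) = c • T ^ (n + 1) := by
        rw [map_mul, aeval_monomial, aeval_X, mul_assoc, ← pow_succ, Algebra.smul_def]
      rw [h1, map_smul, htp, smul_zero]
  -- the minimal polynomial
  have hm0 : minpoly ℚ T ≠ 0 := minpoly.ne_zero (Algebra.IsIntegral.isIntegral T)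
  obtain ⟨g, hg, hgX⟩ := Polynomial.exists_eq_pow_rootMultiplicity_mul_and_not_dvd
    (minpoly ℚ T) hm0 0
  rw [C_0, sub_zero] at hg hgX
  generalize (minpoly ℚ T).rootMultiplicity 0 = m at hg
  have hcop : IsCoprime ((X : ℚ[X]) ^ (m + 1)) g :=
    IsCoprime.pow_left ((Polynomial.irreducible_X.coprime_iff_not_dvd).2 hgX)
  obtain ⟨a, c, hac⟩ := hcop
  set π : Module.End ℚ W := aeval T (a * X ^ (m + 1)) with hπ
  have hmin : aeval T (X ^ m * g) = 0 := by
    rw [← hg]
    exact minpoly.aeval ℚ T
  have hidem : IsIdempotentElem π := by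
    have h1 : a * X ^ (m + 1) * (a * X ^ (m + 1)) =
        a * X ^ (m + 1) - (X ^ m * g) * (a * X * c) := by
      have h2 : a * X ^ (m + 1) = 1 - c * g := by rw [← hac]; ring
      calc a * X ^ (m + 1) * (a * X ^ (m + 1)) = a * X ^ (m + 1) * (1 - c * g) := by rw [← h2]
        _ = _ := by ring
    unfold IsIdempotentElem
    rw [hπ, ← map_mul, h1, map_sub, map_mul (aeval T) (X ^ m * g), hmin, zero_mul, sub_zero]
  have hev : ∀ q : ℚ[X], aeval T q w = (q.eval 1) • w := by
    intro q
    induction q using Polynomial.induction_on' with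
    | add p q hp hq => rw [map_add, LinearMap.add_apply, hp, hq, eval_add, add_smul]
    | monomial n c =>
      rw [aeval_monomial, eval_monomial, one_pow, mul_one, Module.End.mul_apply,
        Module.algebraMap_end_apply]
      congr 1
      induction n with
      | zero => simp
      | succ n ih => rw [pow_succ, Module.End.mul_apply, hTw, ih]
  have hg1 : g.eval 1 = 0 := by
    have h1 := hev (X ^ m * g)
    rw [hmin, LinearMap.zero_apply, eval_mul, eval_pow, eval_X, one_pow, one_mul] at h1
    exact (smul_eq_zero.1 h1.symm).resolve_right hw0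
  have hπw : π w = w := by
    have h1 := hev (a * X ^ (m + 1))
    have h2 : (a * X ^ (m + 1)).eval 1 = 1 := by
      have h3 := congrArg (Polynomial.eval 1) hac
      rw [eval_add, eval_mul (p := c) (q := g), hg1, mul_zero, add_zero, eval_one] at h3
      exact h3
    rw [h2, one_smul] at h1
    exact h1
  have htrace : LinearMap.trace ℚ W π = 0 := by
    rw [hπ, pow_succ, ← mul_assoc]
    exact hpoly _
  obtain ⟨p, hp⟩ := (LinearMap.isProj_iff_isIdempotentElem π).2 hidem
  rw [hp.trace] at htrace
  have hrank : Module.finrank ℚ p = 0 := by exact_mod_cast htrace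
  have hpb : p = ⊥ := Submodule.finrank_eq_zero.1 hrank
  have hmem : w ∈ p := by
    rw [← hπw]
    exact hp.map_mem w
  rw [hpb, Submodule.mem_bot] at hmem
  exact hw0 hmem

end Pool.Agent.UG
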