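import Pool.Agent.helper54.UG.Spec2

/-!
# Row STQ of project ug: the image of a subspace of nilpotent matrices under the block map
-/

set_option autoImplicit false

namespace Pool.Agent.UG

open Matrix Pool.Agent.H48SL

theorem STQ_list {n : ℕ} (𝔟 : Submodule ℚ (MQ (n + 1))) (hk : ∀ X ∈ 𝔟, X *ᵥ e0 n = 0)
    (l : List (MQ n)) (hl : ∀ X ∈ l, X ∈ 𝔟.map (dnL n)) :
    ∃ l' : List (MQ (n + 1)), (∀ X ∈ l', X ∈ 𝔟) ∧ l'.length = l.length ∧
      l.prod = dn l'.prod := by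
  induction l with
  | nil =>
    refine ⟨[], by simp, rfl, ?_⟩
    rw [List.prod_nil, List.prod_nil, dn_one]
  | cons X l ih =>
    obtain ⟨l', h1, h2, h3⟩ := ih fun Y hY => hl Y (List.mem_cons_of_mem _ hY)
    obtain ⟨X', hX', hXX⟩ := Submodule.mem_map.1 (hl X List.mem_cons_self)
    refine ⟨X' :: l', ?_, ?_, ?_⟩
    · intro Y hY
      rcases List.mem_cons.1 hY with h | h
      · rw [h]; exact hX'
      · exact h1 Y h
    · rw [List.length_cons, List.length_cons, h2]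
    · rw [List.prod_cons, List.prod_cons, h3, dn_mul _ _ fun i => (kill_iff X').1 (hk X' hX') _,
        ← hXX]
      rfl

theorem STQ (hEXD : EXD_stmt) : STQ_stmt := by
  intro n H 𝔟 hk hA hL
  refine ⟨?_, ?_⟩
  · obtain ⟨N, hN⟩ := hA
    refine ⟨N, fun l hl hlen => ?_⟩
    obtain ⟨l', h1, h2, h3⟩ := STQ_list 𝔟 hk l hl
    rw [h3, hN l' h1 (by omega)]
    rfl
  · intro X hX
    obtain ⟨X', hX', hXX⟩ := Submodule.mem_map.1 hX
    obtain ⟨k, hk1, h, hh, hq⟩ := hL X' hX'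
    have hmem : (k : ℚ) • X' ∈ 𝔟 := 𝔟.smul_mem _ hX'
    obtain ⟨-, h2, h3⟩ := hEXD n ((k : ℚ) • X') (hA.nil hmem) (hk _ hmem)
    have hf : fx h := by
      unfold fx
      rw [hq]
      exact h3
    refine ⟨k, hk1, bl h hf, mem_Hb.2 ⟨h, hh, hf, (qg_bl h hf).symm⟩, ?_⟩
    rw [qg_bl, hq, h2, ← hXX]
    rfl

end Pool.Agent.UG
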